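import Pool.Agent.Y976.SG.Fin
import Pool.Agent.Y47.SG.PD
import Pool.Agent.Y43.SG.GRO
import Pool.Agent.Y901.SG.Ser
import Pool.Agent.Y185.SG.Vr
import Pool.Agent.Y542.SG.AV1
import Pool.Agent.Y41.SG.AV2

/-!
# The best constant in the symmetric Grothendieck inequality over the reals is `π - 1`

The objects `IsGrothendieckBound`, `KG`, `IsCorrelation`, `rankOneMax`, `CorrelationGrothendieck`
are defined in `Pool/Agent/H809R2/GI/Defs.lean`.

Idea of the proof of the upper bound. By Grothendieck's identity the matrix `(2/π) arcsin [G]`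
(entrywise) is, for every correlation matrix `G`, a convex combination of the matrices `x xᵀ`, `x` a
vector of signs.  So it suffices to show that `arcsin t - t` is a mixture of functions
`(2/π) arcsin (g (t))`, of total mass `π/2 - 1`, with power series `g` with nonnegative coefficients of
sum one (then `g [S]` is a correlation matrix by Schur).
(1) The function `g₁ (sin θ) = sin (θ - sin θ cos θ)` is such a power series: its derivative is
`2 t² H (t²)`, where the entire function `H (τ) = cos w + τ sin w / w`, `w² = τ (1 - τ)`, has the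
nonnegative coefficients `(-1)^n ∑_k (C(k,n-k)/(2k)! - C(k,n-1-k)/(2k+1)!)`.
(2) With `χ_ρ = arctan (ρ tan θ)`, whose sine `ρ t / √(1 - (1-ρ²) t²)` is such a power series too,
`χ_r - r θ = r ∫_r^1 (χ_ρ - sin χ_ρ cos χ_ρ) dρ / ρ²`.
(3) `θ - sin θ = (2/π) ∫_0^{π/2} (cos α / sin² α) (χ_{cos α} - cos α θ) dα`.

Authors of the parts: helper47 (powers of correlation matrices), helper43 (Grothendieck's identity
for correlation matrices), helper901 (power series of (1)), helper185 (power series of (2)), helper542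
(first averaging), helper41 (second averaging), helper976 (the rest). The lower bounds `π - 1` and
`8/π - 1` and the bounds for the Grothendieck constants are lemmas of the starting library
`Pool.Agent.H809R2.GI`.
-/

set_option autoImplicit false

namespace Pool.Agent.Results.MP_aeebd3_an.SymmetricConstant

open Pool.Agent.H809R2.GI Matrix

/-- The set of the matrices `x xᵀ` where `x` is a vector of `k` signs. -/
def signMatrices (k : ℕ) : Set (Matrix (Fin k) (Fin k) ℝ) :=
  {Z | ∃ x : Fin k → ℝ, (∀ i, x i = 1 ∨ x i = -1) ∧ Z = Matrix.vecMulVec x x}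

/-- (1) Over `ℝ` the best constant `K` in `|tr (B^* S)| ≤ K max |tr (B^* Θ)|` (all `k`, all `k × k`
correlation matrices `S`, all `k × k` matrices `B`, `Θ` over the correlation matrices of rank one)
is `π - 1`.
(2) Every real correlation matrix is `(1 + γ) Z₁ - γ Z₂` with `Z₁`, `Z₂` in the convex hull of the
correlation matrices of rank one, with `γ = π/2 - 1`, and this is the smallest `γ ≥ 0` for which
this is true.
(3) Over `ℂ` no constant less than `8/π - 1` is admissible.
(4) So the inequality of the question, with the Grothendieck constant `KG 𝔽`, fails for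
`𝔽 = ℝ` and for `𝔽 = ℂ`. -/
theorem result :
    IsLeast {K : ℝ | ∀ (k : ℕ) (S B : Matrix (Fin k) (Fin k) ℝ), IsCorrelation S →
      ‖(Bᴴ * S).trace‖ ≤ K * rankOneMax B} (Real.pi - 1) ∧
    IsLeast {γ : ℝ | 0 ≤ γ ∧ ∀ (k : ℕ) (S : Matrix (Fin k) (Fin k) ℝ), IsCorrelation S →
      ∃ Z₁ ∈ convexHull ℝ (signMatrices k), ∃ Z₂ ∈ convexHull ℝ (signMatrices k),
        S = (1 + γ) • Z₁ - γ • Z₂} (Real.pi / 2 - 1) ∧
    (∀ K : ℝ, (∀ (k : ℕ) (S B : Matrix (Fin k) (Fin k) ℂ), IsCorrelation S →
      ‖(Bᴴ * S).trace‖ ≤ K * rankOneMax B) → 8 / Real.pi - 1 ≤ K) ∧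
    (IsLeast {K : ℝ | IsGrothendieckBound ℝ K} (KG ℝ) ∧ KG ℝ < Real.pi - 1 ∧
      ¬ CorrelationGrothendieck ℝ) ∧
    (IsLeast {K : ℝ | IsGrothendieckBound ℂ K} (KG ℂ) ∧ KG ℂ < 8 / Real.pi - 1 ∧
      ¬ CorrelationGrothendieck ℂ) := by
  have hup := Pool.Agent.Y976.SG.upper Pool.Agent.Y47.SG.PD.main Pool.Agent.Y47.SG.PD.ent
    Pool.Agent.Y43.SG.GRO.main Pool.Agent.Y901.SG.main Pool.Agent.Y185.SG.main
    Pool.Agent.Y542.SG.AV1.main Pool.Agent.Y41.SG.main
  have hone := Pool.Agent.Y976.SG.one_sided hup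
  have hdec := Pool.Agent.Y976.SG.decomposition hone
  have hr := Pool.Agent.Y976.SG.kg_real
  have hc := Pool.Agent.Y976.SG.kg_complex
  refine ⟨Pool.Agent.Y976.SG.least_real hup, Pool.Agent.Y976.SG.least_gamma hdec,
    Pool.Agent.Y976.SG.lower_complex, ⟨hr.1, hr.2, fun h => ?_⟩, ⟨hc.1, hc.2, fun h => ?_⟩⟩
  · exact absurd (Pool.Agent.Y976.SG.lower_real _ h) (not_le.mpr hr.2)
  · exact absurd (Pool.Agent.Y976.SG.lower_complex _ h) (not_le.mpr hc.2)

end Pool.Agent.Results.MP_aeebd3_an.SymmetricConstant
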